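import Pool.Agent.Run7.h814.VC.Asm

/-! # Vinogradov's system: solutions whose pairs lie on few curves, without loss of an `ε` -/

set_option autoImplicit false

namespace Pool.Agent.Results.MP_e21eee_nt.FewCurves

open Finset

open scoped Classical in
/-- The non-diagonal solutions `(x, y)` of Vinogradov's system of degree `k` in `s` pairs of variables
with all entries in `A` such that, for some permutation `σ`, at most `r` of the pairs `(x_i, y_{σ i})`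
fail the relation `P`. Non-diagonal: `y` is not a permutation of `x`. -/
noncomputable def nonDiag {R : Type} [CommSemiring R] (s k r : ℕ) (A : Finset R) (P : R → R → Prop) :
    Finset ((Fin s → R) × (Fin s → R)) :=
  ((Fintype.piFinset fun _ : Fin s => A) ×ˢ (Fintype.piFinset fun _ : Fin s => A)).filter fun p =>
    (∀ j : Fin k, ∑ i : Fin s, p.1 i ^ (j.val + 1) = ∑ i : Fin s, p.2 i ^ (j.val + 1)) ∧
    (∃ σ : Equiv.Perm (Fin s), (Finset.univ.filter fun i => ¬ P (p.1 i) (p.2 (σ i))).card ≤ r) ∧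
    ¬ ∃ σ : Equiv.Perm (Fin s), p.2 = p.1 ∘ σ

/-- The curve `y = f(x)` is admissible for the degree `k`: `f ≠ X`, and if `f = a X + b` is linear or
constant then `a = 1` or `a ^ j ≠ 1` for all `2 ≤ j ≤ k`. (Over a subfield of `ℝ`: `f` is neither `X` nor
of the form `b - X`.) -/
def Admissible {K : Type} [Field K] (k : ℕ) (f : Polynomial K) : Prop :=
  f ≠ Polynomial.X ∧ ∀ a b : K, f = Polynomial.C a * Polynomial.X + Polynomial.C b →
    a = 1 ∨ ∀ j : ℕ, 2 ≤ j → j ≤ k → a ^ j ≠ 1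

/-- `a = b`, or the point `(a, b)` lies on one of the curves `y = f(x)` or `x = f(y)` with `f ∈ F`. -/
def OnCurve {K : Type} [Field K] (F : Finset (Polynomial K)) (a b : K) : Prop :=
  a = b ∨ ∃ f ∈ F, b = f.eval a ∨ a = f.eval b

open scoped Classical in
theorem mem_nonDiag {R : Type} [CommSemiring R] (s k r : ℕ) (A : Finset R) (P : R → R → Prop)
    (p : (Fin s → R) × (Fin s → R)) : p ∈ nonDiag s k r A P ↔
    ((∀ i, p.1 i ∈ A) ∧ (∀ i, p.2 i ∈ A)) ∧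
    (∀ j : Fin k, ∑ i : Fin s, p.1 i ^ (j.val + 1) = ∑ i : Fin s, p.2 i ^ (j.val + 1)) ∧
    (∃ σ : Equiv.Perm (Fin s), (Finset.univ.filter fun i => ¬ P (p.1 i) (p.2 (σ i))).card ≤ r) ∧
    ¬ ∃ σ : Equiv.Perm (Fin s), p.2 = p.1 ∘ σ := by
  rw [nonDiag, mem_filter, mem_product, Fintype.mem_piFinset, Fintype.mem_piFinset]

theorem nonDiag_mono {R : Type} [CommSemiring R] (s k r : ℕ) (A : Finset R) (P Q : R → R → Prop)
    (h : ∀ a ∈ A, ∀ b ∈ A, P a b → Q a b) : nonDiag s k r A P ⊆ nonDiag s k r A Q := by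
  classical
  intro p hp
  rw [mem_nonDiag] at hp ⊢
  obtain ⟨⟨p1, p2⟩, p3, ⟨σ, p4⟩, p5⟩ := hp
  refine ⟨⟨p1, p2⟩, p3, ⟨σ, le_trans (card_le_card ?_) p4⟩, p5⟩
  intro i hi
  rw [mem_filter] at hi ⊢
  exact ⟨hi.1, fun hP => hi.2 (h _ (p1 i) _ (p2 (σ i)) hP)⟩

section general

variable {K : Type} [Field K] [CharZero K]

open scoped Classical in
/-- the case `σ = 1` -/
noncomputable def ND (s k r : ℕ) (A : Finset K) (P : K → K → Prop) :
    Finset ((Fin s → K) × (Fin s → K)) :=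
  ((Fintype.piFinset fun _ : Fin s => A) ×ˢ (Fintype.piFinset fun _ : Fin s => A)).filter fun p =>
    (∀ j : Fin k, ∑ i : Fin s, p.1 i ^ (j.val + 1) = ∑ i : Fin s, p.2 i ^ (j.val + 1)) ∧
    (Finset.univ.filter fun i => ¬ P (p.1 i) (p.2 i)).card ≤ r ∧
    ¬ ∃ σ : Equiv.Perm (Fin s), p.2 = p.1 ∘ σ

theorem nonDiag_le (s k r : ℕ) (A : Finset K) (P : K → K → Prop) :
    (nonDiag s k r A P).card ≤ s.factorial * (ND s k r A P).card := by
  classical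
  have hsub : nonDiag s k r A P ⊆ (univ : Finset (Equiv.Perm (Fin s))).biUnion
      fun σ => (ND s k r A P).image fun p => (p.1, p.2 ∘ σ) := by
    intro p hp
    rw [nonDiag, mem_filter] at hp
    obtain ⟨h1, h2, ⟨σ, h3⟩, h4⟩ := hp
    rw [mem_biUnion]
    refine ⟨σ.symm, mem_univ _, ?_⟩
    rw [mem_image]
    refine ⟨(p.1, p.2 ∘ σ), ?_, ?_⟩
    · rw [ND, mem_filter]
      rw [mem_product, Fintype.mem_piFinset, Fintype.mem_piFinset] at h1 ⊢
      refine ⟨⟨h1.1, fun i => h1.2 (σ i)⟩, fun j => ?_, h3, ?_⟩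
      · rw [h2 j]
        exact (Equiv.sum_comp σ (fun i => p.2 i ^ (j.val + 1))).symm
      · rintro ⟨τ, hτ⟩
        refine h4 ⟨σ.symm.trans τ, ?_⟩
        funext i
        have := congrFun hτ (σ.symm i)
        simpa using this
    · refine Prod.ext rfl ?_
      funext i
      simp
  calc (nonDiag s k r A P).card ≤ _ := card_le_card hsub
    _ ≤ ∑ σ : Equiv.Perm (Fin s), ((ND s k r A P).image fun p => (p.1, p.2 ∘ σ)).card :=
        card_biUnion_le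
    _ ≤ ∑ _σ : Equiv.Perm (Fin s), (ND s k r A P).card := sum_le_sum fun σ _ => card_image_le
    _ = _ := by
        rw [sum_const, card_univ, Fintype.card_perm, Fintype.card_fin, smul_eq_mul]

theorem nd_bound {s n r D : ℕ} (hr : 1 ≤ r) (hrs : r ≤ s) (hD : 1 ≤ D)
    (A : Finset K) (H : ℕ) (hH : 1 ≤ H) (hHN : H ≤ A.card)
    (F : Finset (Polynomial K)) (hF : ∀ f ∈ F, Admissible (n + 1) f ∧ f.natDegree ≤ D)
    (hFc : F.card ≤ D * H) :
    (ND s (n + 1) r A (OnCurve F)).card ≤ 2 ^ (2 * s) * Pool.Agent.Run7.h814.VC.C3 s n D *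
      (H ^ (s - r) * A.card ^ (s - (n + 1) + r) + H ^ (n + 1) * A.card ^ (s - 2)) := by
  classical
  have hsub : ND s (n + 1) r A (OnCurve F) ⊆
      ((univ : Finset (Finset (Fin s) × Finset (Fin s))).filter fun q =>
        Disjoint q.1 q.2 ∧ 1 ≤ q.2.card ∧ q.2.card ≤ r ∧ n + 2 ≤ q.1.card + q.2.card).biUnion
      fun q => Pool.Agent.Run7.h814.VC.NR n A F q.1 q.2 := by
    intro p hp
    rw [ND, mem_filter] at hp
    obtain ⟨h1, h2, h3, h4⟩ := hp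
    let E : Finset (Fin s) := univ.filter fun i => ¬ OnCurve F (p.1 i) (p.2 i)
    let M : Finset (Fin s) := univ.filter fun i => p.1 i ≠ p.2 i
    have hM0 : ∀ i, i ∉ M → p.1 i = p.2 i := by
      intro i hi
      by_contra hne
      exact hi (by simp [M, hne])
    have hMc : n + 2 ≤ M.card := by
      by_contra hle
      exact h4 (Pool.Agent.Run7.h814.VC.newton_support p.1 p.2 h2 M hM0 (by omega))
    have hEM : E ⊆ M := by
      intro i hi
      rw [mem_filter] at hi ⊢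
      exact ⟨mem_univ _, fun h => hi.2 (Or.inl h)⟩
    obtain ⟨R, hRM, hER, hR1, hRr⟩ : ∃ R, R ⊆ M ∧ E ⊆ R ∧ 1 ≤ R.card ∧ R.card ≤ r := by
      by_cases hE : E.card = 0
      · obtain ⟨i0, hi0⟩ : M.Nonempty := card_pos.1 (by omega)
        refine ⟨{i0}, by simpa using hi0, ?_, by simp, by simpa using hr⟩
        rw [card_eq_zero.1 hE]
        exact empty_subset _
      · exact ⟨E, hEM, subset_refl _, by omega, h3⟩
    rw [mem_biUnion]
    refine ⟨(M \ R, R), ?_, ?_⟩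
    · rw [mem_filter]
      refine ⟨mem_univ _, sdiff_disjoint, hR1, hRr, ?_⟩
      simp only
      rw [card_sdiff_of_subset hRM]
      have := card_le_card hRM
      omega
    · rw [Pool.Agent.Run7.h814.VC.NR, mem_filter]
      refine ⟨h1, fun i hi hiR => ?_, fun i hi => ?_, h2⟩
      · simp only at hi hiR
        rw [mem_sdiff, not_and, not_not] at hi
        by_contra hne
        exact hiR (hi (by simp [M, hne]))
      · simp only at hi
        rw [mem_sdiff] at hi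
        have hiE : i ∉ E := fun h => hi.2 (hER h)
        have hon : OnCurve F (p.1 i) (p.2 i) := by
          by_contra hne
          exact hiE (by simp [E, hne])
        rcases hon with h | h
        · exact absurd h (mem_filter.1 hi.1).2
        · exact h
  calc (ND s (n + 1) r A (OnCurve F)).card ≤ _ := card_le_card hsub
    _ ≤ _ := card_biUnion_le
    _ ≤ ∑ q ∈ (univ : Finset (Finset (Fin s) ×
          Finset (Fin s))).filter (fun q => Disjoint q.1 q.2 ∧ 1 ≤ q.2.card ∧ q.2.card ≤ r ∧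
            n + 2 ≤ q.1.card + q.2.card), Pool.Agent.Run7.h814.VC.C3 s n D *
          (H ^ (s - r) * A.card ^ (s - (n + 1) + r) + H ^ (n + 1) * A.card ^ (s - 2)) := by
        refine sum_le_sum fun q hq => ?_
        obtain ⟨-, q1, q2, q3, q4⟩ := mem_filter.1 hq
        exact Pool.Agent.Run7.h814.VC.nr_bound hD A H hH hHN F (fun f hf => (hF f hf).1)
          (fun f hf => (hF f hf).2) hFc q.1 q.2 q1 q2 q3 hrs q4
    _ ≤ 2 ^ (2 * s) * (Pool.Agent.Run7.h814.VC.C3 s n D *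
          (H ^ (s - r) * A.card ^ (s - (n + 1) + r) + H ^ (n + 1) * A.card ^ (s - 2))) := by
        rw [sum_const, smul_eq_mul]
        refine Nat.mul_le_mul_right _ ?_
        refine (card_filter_le _ _).trans ?_
        rw [card_univ, Fintype.card_prod, Fintype.card_finset, Fintype.card_fin, ← pow_add]
        exact Nat.pow_le_pow_right (by norm_num) (by omega)
    _ = _ := by ring

end general

/-- the constant of part 1 -/
def K1 (s k D : ℕ) : ℕ := s.factorial * (2 ^ (2 * s) * Pool.Agent.Run7.h814.VC.C3 s (k - 1) D)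

theorem bound {K : Type} [Field K] [CharZero K] (s k r D : ℕ) (hk : 2 ≤ k) (hs : k < s) (h1 : 1 ≤ r)
    (hr : r ≤ k) (hD : 1 ≤ D) (A : Finset K) (F : Finset (Polynomial K)) (H : ℕ) (hH : 1 ≤ H)
    (hHN : H ≤ A.card) (hFc : F.card ≤ D * H) (hF : ∀ f ∈ F, Admissible k f ∧ f.natDegree ≤ D) :
    (nonDiag s k r A (OnCurve F)).card ≤
      K1 s k D * (H ^ (s - r) * A.card ^ (s - k + r) + H ^ k * A.card ^ (s - 2)) := by
  obtain ⟨n, rfl⟩ : ∃ n, k = n + 1 := ⟨k - 1, by omega⟩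
  refine (nonDiag_le s (n + 1) r A (OnCurve F)).trans ?_
  rw [K1, Nat.add_sub_cancel, mul_assoc]
  exact Nat.mul_le_mul_left _ (nd_bound h1 (by omega) hD A H hH hHN F hF hFc)

/-- the bound with real exponents -/
theorem real_bound {K : Type} [Field K] [CharZero K] (s k r D : ℕ) (hk : 2 ≤ k) (hs : k < s)
    (h1 : 1 ≤ r) (hr : r ≤ k) (hD : 1 ≤ D) (A : Finset K) (F : Finset (Polynomial K)) (θ δ : ℝ)
    (h0 : 0 ≤ θ) (hθ1 : θ ≤ 1) (ha : θ * ((s : ℝ) - r) ≤ (k : ℝ) - r - δ) (hb : θ * k ≤ 2 - δ)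
    (hA : A.Nonempty) (hFc : (F.card : ℝ) ≤ D * (A.card : ℝ) ^ θ)
    (hF : ∀ f ∈ F, Admissible k f ∧ f.natDegree ≤ D) :
    ((nonDiag s k r A (OnCurve F)).card : ℝ) ≤
      (2 * K1 s k (2 * D) : ℕ) * (A.card : ℝ) ^ ((s : ℝ) - δ) := by
  obtain ⟨N, hN⟩ : ∃ N, N = A.card := ⟨_, rfl⟩
  have hNpos : 1 ≤ N := by rw [hN]; exact card_pos.2 hA
  rw [← hN] at hFc ⊢
  have hN1 : (1 : ℝ) ≤ (N : ℝ) := by exact_mod_cast hNpos
  have hN0 : (0 : ℝ) < (N : ℝ) := by linarith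
  have hX1 : (1 : ℝ) ≤ (N : ℝ) ^ θ := Real.one_le_rpow hN1 h0
  have hXN : (N : ℝ) ^ θ ≤ N := by
    calc (N : ℝ) ^ θ ≤ (N : ℝ) ^ (1 : ℝ) := Real.rpow_le_rpow_of_exponent_le hN1 hθ1
      _ = N := Real.rpow_one _
  have hH1 : 1 ≤ ⌊(N : ℝ) ^ θ⌋₊ := Nat.le_floor (by simpa using hX1)
  have hHN : ⌊(N : ℝ) ^ θ⌋₊ ≤ N := by
    have := Nat.floor_le_floor hXN
    simpa using this
  have hH : ((⌊(N : ℝ) ^ θ⌋₊ : ℕ) : ℝ) ≤ (N : ℝ) ^ θ := Nat.floor_le (by positivity)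
  have hFc2 : F.card ≤ 2 * D * ⌊(N : ℝ) ^ θ⌋₊ := by
    have e1 : (N : ℝ) ^ θ < ⌊(N : ℝ) ^ θ⌋₊ + 1 := Nat.lt_floor_add_one _
    have e2 : (1 : ℝ) ≤ ((⌊(N : ℝ) ^ θ⌋₊ : ℕ) : ℝ) := by exact_mod_cast hH1
    have e3 : (N : ℝ) ^ θ ≤ 2 * ((⌊(N : ℝ) ^ θ⌋₊ : ℕ) : ℝ) := by linarith
    have e4 : (F.card : ℝ) ≤ 2 * D * ((⌊(N : ℝ) ^ θ⌋₊ : ℕ) : ℝ) := by
      calc (F.card : ℝ) ≤ D * (N : ℝ) ^ θ := hFc
        _ ≤ D * (2 * ((⌊(N : ℝ) ^ θ⌋₊ : ℕ) : ℝ)) := mul_le_mul_of_nonneg_left e3 (by positivity)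
        _ = _ := by ring
    exact_mod_cast e4
  have h2 := bound s k r (2 * D) hk hs h1 hr (by omega) A F ⌊(N : ℝ) ^ θ⌋₊ hH1 (by rw [← hN]; exact hHN)
    hFc2 (fun f hf => ⟨(hF f hf).1, (hF f hf).2.trans (by omega)⟩)
  rw [← hN] at h2
  have h3 : ((nonDiag s k r A (OnCurve F)).card : ℝ) ≤
      (K1 s k (2 * D) : ℕ) * (((⌊(N : ℝ) ^ θ⌋₊ : ℕ) : ℝ) ^ (s - r) * (N : ℝ) ^ (s - k + r) +
        ((⌊(N : ℝ) ^ θ⌋₊ : ℕ) : ℝ) ^ k * (N : ℝ) ^ (s - 2)) := by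
    exact_mod_cast h2
  have hp : ∀ m : ℕ, ((⌊(N : ℝ) ^ θ⌋₊ : ℕ) : ℝ) ^ m ≤ (N : ℝ) ^ (θ * m) := by
    intro m
    calc ((⌊(N : ℝ) ^ θ⌋₊ : ℕ) : ℝ) ^ m ≤ ((N : ℝ) ^ θ) ^ m := pow_le_pow_left₀ (by positivity) hH m
      _ = (N : ℝ) ^ (θ * m) := by rw [Real.rpow_mul hN0.le, Real.rpow_natCast]
  have h4 : ((⌊(N : ℝ) ^ θ⌋₊ : ℕ) : ℝ) ^ (s - r) * (N : ℝ) ^ (s - k + r) ≤
      (N : ℝ) ^ ((s : ℝ) - δ) := by
    calc _ ≤ (N : ℝ) ^ (θ * ((s - r : ℕ) : ℝ)) * (N : ℝ) ^ (((s - k + r : ℕ)) : ℝ) := by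
          rw [Real.rpow_natCast]
          exact mul_le_mul_of_nonneg_right (hp _) (by positivity)
      _ = (N : ℝ) ^ (θ * ((s - r : ℕ) : ℝ) + ((s - k + r : ℕ) : ℝ)) := (Real.rpow_add hN0 _ _).symm
      _ ≤ (N : ℝ) ^ ((s : ℝ) - δ) := by
          apply Real.rpow_le_rpow_of_exponent_le hN1
          rw [Nat.cast_add, Nat.cast_sub (by omega : r ≤ s), Nat.cast_sub hs.le]
          linarith
  have h5 : ((⌊(N : ℝ) ^ θ⌋₊ : ℕ) : ℝ) ^ k * (N : ℝ) ^ (s - 2) ≤ (N : ℝ) ^ ((s : ℝ) - δ) := by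
    calc _ ≤ (N : ℝ) ^ (θ * (k : ℝ)) * (N : ℝ) ^ (((s - 2 : ℕ)) : ℝ) := by
          rw [Real.rpow_natCast]
          exact mul_le_mul_of_nonneg_right (hp _) (by positivity)
      _ = (N : ℝ) ^ (θ * (k : ℝ) + ((s - 2 : ℕ) : ℝ)) := (Real.rpow_add hN0 _ _).symm
      _ ≤ (N : ℝ) ^ ((s : ℝ) - δ) := by
          apply Real.rpow_le_rpow_of_exponent_le hN1
          rw [Nat.cast_sub (by omega : 2 ≤ s)]
          push_cast
          linarith
  calc ((nonDiag s k r A (OnCurve F)).card : ℝ) ≤ _ := h3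
    _ ≤ (K1 s k (2 * D) : ℕ) * ((N : ℝ) ^ ((s : ℝ) - δ) + (N : ℝ) ^ ((s : ℝ) - δ)) :=
        mul_le_mul_of_nonneg_left (add_le_add h4 h5) (by positivity)
    _ = _ := by push_cast; ring

/-- passing from the natural numbers to the rationals -/
theorem transfer (s k r N : ℕ) (P : ℕ → ℕ → Prop) (F : Finset (Polynomial ℚ))
    (h : ∀ a b : ℕ, 1 ≤ a → a ≤ N → 1 ≤ b → b ≤ N → P a b → OnCurve F (a : ℚ) (b : ℚ)) :
    (nonDiag s k r (Finset.Icc 1 N) P).card ≤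
      (nonDiag s k r ((Finset.Icc 1 N).image fun m : ℕ => (m : ℚ)) (OnCurve F)).card := by
  classical
  refine card_le_card_of_injOn (fun p => (fun i => (p.1 i : ℚ), fun i => (p.2 i : ℚ))) ?_ ?_
  · intro p hp
    rw [mem_coe, mem_nonDiag] at hp
    obtain ⟨⟨h1, h2⟩, h3, ⟨σ, h4⟩, h5⟩ := hp
    rw [mem_coe, mem_nonDiag]
    refine ⟨⟨fun i => mem_image_of_mem _ (h1 i), fun i => mem_image_of_mem _ (h2 i)⟩, fun j => ?_,
      ⟨σ, le_trans (card_le_card ?_) h4⟩, ?_⟩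
    · have := h3 j
      simp only
      exact_mod_cast this
    · intro i hi
      rw [mem_filter] at hi ⊢
      refine ⟨hi.1, fun hP => hi.2 ?_⟩
      have a1 := mem_Icc.1 (h1 i)
      have a2 := mem_Icc.1 (h2 (σ i))
      exact h _ _ a1.1 a1.2 a2.1 a2.2 hP
    · rintro ⟨τ, hτ⟩
      refine h5 ⟨τ, ?_⟩
      funext i
      have := congrFun hτ i
      simp only [Function.comp_apply, Nat.cast_inj] at this
      exact this
  · intro p _ q _ hpq
    have h1 := congrArg Prod.fst hpq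
    have h2 := congrArg Prod.snd hpq
    refine Prod.ext (funext fun i => ?_) (funext fun i => ?_)
    · have := congrFun h1 i
      simp only [Nat.cast_inj] at this
      exact this
    · have := congrFun h2 i
      simp only [Nat.cast_inj] at this
      exact this

theorem admissible_lin (k : ℕ) (a b : ℚ) (ha : 0 < a) (hne : ¬ (a = 1 ∧ b = 0)) :
    Admissible k (Polynomial.C a * Polynomial.X + Polynomial.C b) := by
  have h1 : ∀ c d : ℚ, (Polynomial.C c * Polynomial.X + Polynomial.C d).coeff 1 = c := by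
    intro c d
    simp [Polynomial.coeff_C_succ]
  have h0 : ∀ c d : ℚ, (Polynomial.C c * Polynomial.X + Polynomial.C d).coeff 0 = d := by
    intro c d
    simp
  refine ⟨fun h => hne ⟨?_, ?_⟩, fun c d hcd => ?_⟩
  · rw [← h1 a b, h, Polynomial.coeff_X_one]
  · rw [← h0 a b, h, Polynomial.coeff_X_zero]
  · have hac : a = c := by rw [← h1 a b, hcd, h1]
    by_cases hc : c = 1
    · exact Or.inl hc
    · refine Or.inr fun j hj _ hj1 => hc ?_
      exact (pow_eq_one_iff_of_nonneg (by rw [← hac]; exact ha.le) (by omega)).1 hj1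

theorem card_cast (N : ℕ) : ((Finset.Icc 1 N).image fun m : ℕ => (m : ℚ)).card = N := by
  rw [card_image_of_injective _ Nat.cast_injective, Nat.card_Icc, Nat.add_sub_cancel]

theorem nat_bound (s k r D : ℕ) (hk : 2 ≤ k) (hs : k < s)
    (h1 : 1 ≤ r) (hr : r ≤ k) (hD : 1 ≤ D) (N : ℕ) (hN : 1 ≤ N) (F : Finset (Polynomial ℚ)) (θ δ : ℝ)
    (h0 : 0 ≤ θ) (hθ1 : θ ≤ 1) (ha : θ * ((s : ℝ) - r) ≤ (k : ℝ) - r - δ) (hb : θ * k ≤ 2 - δ)
    (hFc : (F.card : ℝ) ≤ D * (N : ℝ) ^ θ)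
    (hF : ∀ f ∈ F, Admissible k f ∧ f.natDegree ≤ D) (P : ℕ → ℕ → Prop)
    (h : ∀ a b : ℕ, 1 ≤ a → a ≤ N → 1 ≤ b → b ≤ N → P a b → OnCurve F (a : ℚ) (b : ℚ)) :
    ((nonDiag s k r (Finset.Icc 1 N) P).card : ℝ) ≤
      (2 * K1 s k (2 * D) : ℕ) * (N : ℝ) ^ ((s : ℝ) - δ) := by
  have e1 := transfer s k r N P F h
  have e2 : (((nonDiag s k r (Finset.Icc 1 N) P).card : ℕ) : ℝ) ≤
      ((nonDiag s k r ((Finset.Icc 1 N).image fun m : ℕ => (m : ℚ)) (OnCurve F)).card : ℝ) := by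
    exact_mod_cast e1
  refine e2.trans ?_
  have e3 := real_bound s k r D hk hs h1 hr hD ((Finset.Icc 1 N).image fun m : ℕ => (m : ℚ)) F θ δ
    h0 hθ1 ha hb (by rw [← card_pos, card_cast]; exact hN) (by rw [card_cast]; exact hFc) hF
  rw [card_cast] at e3
  exact e3

theorem gcd_bound (s k r : ℕ) (hk : 2 ≤ k) (hs : k < s) (h1 : 1 ≤ r) (hr : r ≤ k) (N : ℕ)
    (hN : 1 ≤ N) (θ δ : ℝ)
    (h0 : 0 ≤ θ) (hθ1 : θ ≤ 1) (ha : θ * ((s : ℝ) - r) ≤ (k : ℝ) - r - δ) (hb : θ * k ≤ 2 - δ) :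
    ((nonDiag s k r (Finset.Icc 1 N)
      (fun a b => a = b ∨ (N : ℝ) ^ (1 - θ / 2) ≤ (Nat.gcd a b : ℝ))).card : ℝ) ≤
      (2 * K1 s k (2 * 1) : ℕ) * (N : ℝ) ^ ((s : ℝ) - δ) := by
  classical
  have hN1 : (1 : ℝ) ≤ (N : ℝ) := by exact_mod_cast hN
  have hN0 : (0 : ℝ) < (N : ℝ) := by linarith
  obtain ⟨M, hM⟩ : ∃ M, M = ⌊(N : ℝ) ^ (θ / 2)⌋₊ := ⟨_, rfl⟩
  let F : Finset (Polynomial ℚ) := (((Icc 1 M) ×ˢ (Icc 1 M)).filter fun q : ℕ × ℕ => q.1 ≠ q.2).image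
    fun q => Polynomial.C ((q.2 : ℚ) / q.1) * Polynomial.X + Polynomial.C 0
  refine nat_bound s k r 1 hk hs h1 hr le_rfl N hN F θ δ h0 hθ1 ha hb ?_ ?_ _ ?_
  · have c1 : F.card ≤ M * M := by
      refine card_image_le.trans ((card_filter_le _ _).trans ?_)
      rw [card_product, Nat.card_Icc, Nat.add_sub_cancel]
    have c2 : (M : ℝ) ≤ (N : ℝ) ^ (θ / 2) := by rw [hM]; exact Nat.floor_le (by positivity)
    calc (F.card : ℝ) ≤ (M : ℝ) * M := by exact_mod_cast c1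
      _ ≤ (N : ℝ) ^ (θ / 2) * (N : ℝ) ^ (θ / 2) := mul_le_mul c2 c2 (by positivity) (by positivity)
      _ = (N : ℝ) ^ θ := by rw [← Real.rpow_add hN0]; congr 1; ring
      _ = _ := by simp
  · intro f hf
    obtain ⟨q, hq, rfl⟩ := mem_image.1 hf
    rw [mem_filter, mem_product, mem_Icc, mem_Icc] at hq
    have q1 : (0 : ℚ) < (q.1 : ℚ) := by exact_mod_cast hq.1.1.1
    have q2 : (0 : ℚ) < (q.2 : ℚ) := by exact_mod_cast hq.1.2.1
    refine ⟨admissible_lin k _ _ (div_pos q2 q1) fun h => hq.2 ?_, Polynomial.natDegree_linear_le⟩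
    have h3 := h.1
    rw [div_eq_one_iff_eq q1.ne'] at h3
    exact_mod_cast h3.symm
  · intro a b ha1 haN hb1 hbN hP
    rcases hP with h | h
    · left; rw [h]
    by_cases hab : a = b
    · left; rw [hab]
    right
    have hg : 0 < Nat.gcd a b := Nat.gcd_pos_of_pos_left _ ha1
    obtain ⟨g, hgdef⟩ : ∃ g, g = Nat.gcd a b := ⟨_, rfl⟩
    obtain ⟨a', ha'⟩ : ∃ a', a = g * a' := by rw [hgdef]; exact Nat.gcd_dvd_left a b
    obtain ⟨b', hb'⟩ : ∃ b', b = g * b' := by rw [hgdef]; exact Nat.gcd_dvd_right a b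
    rw [← hgdef] at h hg
    have hg0 : (0 : ℝ) < (g : ℝ) := by exact_mod_cast hg
    have hsmall : ∀ c : ℕ, g * c ≤ N → c ≤ M := by
      intro c hc
      rw [hM]
      apply Nat.le_floor
      have c1 : (g : ℝ) * c ≤ N := by exact_mod_cast hc
      have c2 : (N : ℝ) ^ (1 - θ / 2) * (N : ℝ) ^ (θ / 2) = N := by
        rw [← Real.rpow_add hN0]; simp
      have c3 : (N : ℝ) ^ (1 - θ / 2) * c ≤ (N : ℝ) ^ (1 - θ / 2) * (N : ℝ) ^ (θ / 2) := by
        rw [c2]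
        exact (mul_le_mul_of_nonneg_right h (by positivity)).trans c1
      exact le_of_mul_le_mul_left c3 (by positivity)
    have ha1' : 1 ≤ a' := by
      rcases Nat.eq_zero_or_pos a' with h2 | h2
      · rw [h2, mul_zero] at ha'; omega
      · exact h2
    have hb1' : 1 ≤ b' := by
      rcases Nat.eq_zero_or_pos b' with h2 | h2
      · rw [h2, mul_zero] at hb'; omega
      · exact h2
    refine ⟨Polynomial.C ((b' : ℚ) / a') * Polynomial.X + Polynomial.C 0, ?_, Or.inl ?_⟩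
    · rw [mem_image]
      refine ⟨(a', b'), ?_, rfl⟩
      rw [mem_filter, mem_product, mem_Icc, mem_Icc]
      refine ⟨⟨⟨ha1', hsmall a' (by rw [← ha']; exact haN)⟩,
        ⟨hb1', hsmall b' (by rw [← hb']; exact hbN)⟩⟩, fun h2 => hab ?_⟩
      simp only at h2
      rw [ha', hb', h2]
    · have q1 : (a' : ℚ) ≠ 0 := by
        have : (0 : ℚ) < (a' : ℚ) := by exact_mod_cast ha1'
        exact this.ne'
      rw [ha', hb']
      simp only [Polynomial.eval_add, Polynomial.eval_mul, Polynomial.eval_C, Polynomial.eval_X,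
        add_zero]
      push_cast
      field_simp

theorem diff_bound (s k r D : ℕ) (hk : 2 ≤ k) (hs : k < s) (h1 : 1 ≤ r) (hr : r ≤ k) (hD : 1 ≤ D)
    (N : ℕ) (hN : 1 ≤ N) (θ δ : ℝ)
    (h0 : 0 ≤ θ) (hθ1 : θ ≤ 1) (ha : θ * ((s : ℝ) - r) ≤ (k : ℝ) - r - δ) (hb : θ * k ≤ 2 - δ)
    (E : Finset ℤ) (hE : (E.card : ℝ) ≤ D * (N : ℝ) ^ θ) :
    ((nonDiag s k r (Finset.Icc 1 N) (fun a b => a = b ∨ (b : ℤ) - a ∈ E)).card : ℝ) ≤
      (2 * K1 s k (2 * D) : ℕ) * (N : ℝ) ^ ((s : ℝ) - δ) := by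
  classical
  let F : Finset (Polynomial ℚ) := (E.filter fun h => h ≠ 0).image
    fun h : ℤ => Polynomial.C 1 * Polynomial.X + Polynomial.C (h : ℚ)
  refine nat_bound s k r D hk hs h1 hr hD N hN F θ δ h0 hθ1 ha hb ?_ ?_ _ ?_
  · have c1 : F.card ≤ E.card := card_image_le.trans (card_filter_le _ _)
    have c2 : (F.card : ℝ) ≤ E.card := by exact_mod_cast c1
    exact c2.trans hE
  · intro f hf
    obtain ⟨h, hh, rfl⟩ := mem_image.1 hf
    rw [mem_filter] at hh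
    refine ⟨admissible_lin k _ _ one_pos fun h => hh.2 ?_, Polynomial.natDegree_linear_le.trans hD⟩
    exact_mod_cast h.2
  · intro a b _ _ _ _ hP
    rcases hP with h | h
    · left; rw [h]
    by_cases hab : a = b
    · left; rw [hab]
    right
    refine ⟨Polynomial.C 1 * Polynomial.X + Polynomial.C (((b : ℤ) - a : ℤ) : ℚ), ?_, Or.inl ?_⟩
    · rw [mem_image]
      exact ⟨_, mem_filter.2 ⟨h, fun h2 => hab (by omega)⟩, rfl⟩
    · simp only [Polynomial.eval_add, Polynomial.eval_mul, Polynomial.eval_C, Polynomial.eval_X]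
      push_cast
      ring

theorem mod_bound (s k r : ℕ) (hk : 2 ≤ k) (hs : k < s) (h1 : 1 ≤ r) (hr : r ≤ k)
    (N : ℕ) (hN : 1 ≤ N) (θ δ : ℝ)
    (h0 : 0 ≤ θ) (hθ1 : θ ≤ 1) (ha : θ * ((s : ℝ) - r) ≤ (k : ℝ) - r - δ) (hb : θ * k ≤ 2 - δ)
    (q : ℕ) (hq : (N : ℝ) ^ (1 - θ) ≤ q) :
    ((nonDiag s k r (Finset.Icc 1 N) (fun a b => a ≡ b [MOD q])).card : ℝ) ≤
      (2 * K1 s k (2 * 3) : ℕ) * (N : ℝ) ^ ((s : ℝ) - δ) := by
  classical
  have hN1 : (1 : ℝ) ≤ (N : ℝ) := by exact_mod_cast hN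
  have hN0 : (0 : ℝ) < (N : ℝ) := by linarith
  have hq0 : (0 : ℝ) < (q : ℝ) := lt_of_lt_of_le (by positivity) hq
  have hq1 : 0 < q := by exact_mod_cast hq0
  have hX1 : (1 : ℝ) ≤ (N : ℝ) ^ θ := Real.one_le_rpow hN1 h0
  let E : Finset ℤ := (Icc (-((N / q : ℕ) : ℤ)) ((N / q : ℕ) : ℤ)).image fun m => (q : ℤ) * m
  have hE : (E.card : ℝ) ≤ (3 : ℕ) * (N : ℝ) ^ θ := by
    have c1 : E.card ≤ 2 * (N / q) + 1 := by
      refine card_image_le.trans ?_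
      rw [Int.card_Icc]
      omega
    have c2 : ((N / q : ℕ) : ℝ) ≤ (N : ℝ) ^ θ := by
      calc ((N / q : ℕ) : ℝ) ≤ (N : ℝ) / q := Nat.cast_div_le
        _ ≤ (N : ℝ) / (N : ℝ) ^ (1 - θ) := div_le_div_of_nonneg_left hN0.le (by positivity) hq
        _ = (N : ℝ) ^ θ := by
          rw [div_eq_iff (by positivity), ← Real.rpow_add hN0]
          simp
    have c3 : (E.card : ℝ) ≤ 2 * ((N / q : ℕ) : ℝ) + 1 := by exact_mod_cast c1
    push_cast
    linarith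
  refine le_trans ?_ (diff_bound s k r 3 hk hs h1 hr (by norm_num) N hN θ δ h0 hθ1 ha hb E hE)
  have hsub : nonDiag s k r (Finset.Icc 1 N) (fun a b => a ≡ b [MOD q]) ⊆
      nonDiag s k r (Finset.Icc 1 N) (fun a b => a = b ∨ (b : ℤ) - a ∈ E) := by
    refine nonDiag_mono s k r _ _ _ fun a a1 b a2 hP => Or.inr ?_
    obtain ⟨m, hm⟩ := (Nat.modEq_iff_dvd).1 hP
    rw [mem_Icc] at a1 a2
    rw [mem_image]
    refine ⟨m, ?_, hm.symm⟩
    rw [mem_Icc]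
    have b1 : |(q : ℤ) * m| ≤ N := by rw [← hm, abs_le]; constructor <;> omega
    rw [abs_mul, Nat.abs_cast] at b1
    have b2 : q * m.natAbs ≤ N := by
      have : ((q * m.natAbs : ℕ) : ℤ) ≤ N := by
        push_cast
        exact b1
      exact_mod_cast this
    have b3 : m.natAbs ≤ N / q := (Nat.le_div_iff_mul_le hq1).2 (by rw [mul_comm]; exact b2)
    omega
  exact_mod_cast card_le_card hsub

/-- Let `2 ≤ k < s` and `1 ≤ r ≤ k`.
1. Let `A` be a finite subset of a field of characteristic zero, `1 ≤ H ≤ |A|`, and let `F` be any family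
of at most `D H` admissible polynomials of degree at most `D`. The number of non-diagonal solutions in `A`
of Vinogradov's system of degree `k` in `s` pairs of variables for which, after a permutation of `y`, all
but at most `r` of the pairs `(x_i, y_i)` are on the diagonal or on one of the curves `y = f(x)`,
`x = f(y)`, `f ∈ F`, is `O(H^(s-r) |A|^(s-k+r) + H^k |A|^(s-2))`. The constant depends on `s, k, D` only.
2. So if `0 ≤ θ ≤ 1`, `θ (s-r) ≤ k-r-δ`, `θ k ≤ 2-δ`, the number for at most `D |A|^θ` curves is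
`O(|A|^(s-δ))`: a power saving for `θ < min((k-r)/(s-r), 2/k)` and `O(|A|^s)` for equality.
3. For such `θ, δ`: in `[1,N]` only `O(N^(s-δ))` non-diagonal solutions have, after a permutation,
`x_i = y_i` or `gcd(x_i, y_i) ≥ N^(1-θ/2)` for all but at most `r` indices.
4. The same for `y_i - x_i ∈ E ∪ {0}`, for any set `E` of at most `D N^θ` integers.
5. The same for `x_i ≡ y_i (mod q)`, for any `q ≥ N^(1-θ)`. -/
theorem result (s k r : ℕ) (hk : 2 ≤ k) (hs : k < s) (h1 : 1 ≤ r) (hr : r ≤ k) :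
    (∀ D : ℕ, 1 ≤ D → ∃ C : ℕ, ∀ (K : Type) [Field K] [CharZero K] (A : Finset K)
      (F : Finset (Polynomial K)) (H : ℕ), 1 ≤ H → H ≤ A.card → F.card ≤ D * H →
      (∀ f ∈ F, Admissible k f ∧ f.natDegree ≤ D) →
      (nonDiag s k r A (OnCurve F)).card ≤
        C * (H ^ (s - r) * A.card ^ (s - k + r) + H ^ k * A.card ^ (s - 2))) ∧
    (∀ D : ℕ, 1 ≤ D → ∃ C : ℝ, ∀ (K : Type) [Field K] [CharZero K] (A : Finset K)
      (F : Finset (Polynomial K)) (θ δ : ℝ), A.Nonempty → 0 ≤ θ → θ ≤ 1 →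
      θ * ((s : ℝ) - r) ≤ (k : ℝ) - r - δ → θ * k ≤ 2 - δ → (F.card : ℝ) ≤ D * (A.card : ℝ) ^ θ →
      (∀ f ∈ F, Admissible k f ∧ f.natDegree ≤ D) →
      ((nonDiag s k r A (OnCurve F)).card : ℝ) ≤ C * (A.card : ℝ) ^ ((s : ℝ) - δ)) ∧
    (∃ C : ℝ, ∀ (N : ℕ) (θ δ : ℝ), 1 ≤ N → 0 ≤ θ → θ ≤ 1 →
      θ * ((s : ℝ) - r) ≤ (k : ℝ) - r - δ → θ * k ≤ 2 - δ →
      ((nonDiag s k r (Finset.Icc 1 N)
        (fun a b => a = b ∨ (N : ℝ) ^ (1 - θ / 2) ≤ (Nat.gcd a b : ℝ))).card : ℝ) ≤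
          C * (N : ℝ) ^ ((s : ℝ) - δ)) ∧
    (∀ D : ℕ, 1 ≤ D → ∃ C : ℝ, ∀ (N : ℕ) (E : Finset ℤ) (θ δ : ℝ), 1 ≤ N → 0 ≤ θ → θ ≤ 1 →
      θ * ((s : ℝ) - r) ≤ (k : ℝ) - r - δ → θ * k ≤ 2 - δ → (E.card : ℝ) ≤ D * (N : ℝ) ^ θ →
      ((nonDiag s k r (Finset.Icc 1 N) (fun a b => a = b ∨ (b : ℤ) - a ∈ E)).card : ℝ) ≤
        C * (N : ℝ) ^ ((s : ℝ) - δ)) ∧
    (∃ C : ℝ, ∀ (N q : ℕ) (θ δ : ℝ), 1 ≤ N → 0 ≤ θ → θ ≤ 1 →
      θ * ((s : ℝ) - r) ≤ (k : ℝ) - r - δ → θ * k ≤ 2 - δ → (N : ℝ) ^ (1 - θ) ≤ q →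
      ((nonDiag s k r (Finset.Icc 1 N) (fun a b => a ≡ b [MOD q])).card : ℝ) ≤
        C * (N : ℝ) ^ ((s : ℝ) - δ)) := by
  refine ⟨fun D hD => ⟨K1 s k D, ?_⟩, fun D hD => ⟨((2 * K1 s k (2 * D) : ℕ) : ℝ), ?_⟩,
    ⟨((2 * K1 s k (2 * 1) : ℕ) : ℝ), ?_⟩, fun D hD => ⟨((2 * K1 s k (2 * D) : ℕ) : ℝ), ?_⟩,
    ⟨((2 * K1 s k (2 * 3) : ℕ) : ℝ), ?_⟩⟩
  · intro K _ _ A F H hH hHN hFc hF
    exact bound s k r D hk hs h1 hr hD A F H hH hHN hFc hF
  · intro K _ _ A F θ δ hA h0 hθ1 ha hb hFc hF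
    exact real_bound s k r D hk hs h1 hr hD A F θ δ h0 hθ1 ha hb hA hFc hF
  · intro N θ δ hN h0 hθ1 ha hb
    exact gcd_bound s k r hk hs h1 hr N hN θ δ h0 hθ1 ha hb
  · intro N E θ δ hN h0 hθ1 ha hb hE
    exact diff_bound s k r D hk hs h1 hr hD N hN θ δ h0 hθ1 ha hb E hE
  · intro N q θ δ hN h0 hθ1 ha hb hq
    exact mod_bound s k r hk hs h1 hr N hN θ δ h0 hθ1 ha hb q hq

end Pool.Agent.Results.MP_e21eee_nt.FewCurves
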