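import Pool.Agent.Run7.h195.VR.Tup3

/-! # Vinogradov's system: the solutions do not concentrate on any sparse set of tuples of at most `k`
of the variables; a power saving for `s < t ⌊K / t⌋`, `K = k (k + 1) / 2` -/

set_option autoImplicit false

namespace Pool.Agent.Results.MP_e21eee_nt.NoConcentration

open Finset

open scoped Classical in
/-- the solutions of Vinogradov's system of degree `k` in `s` pairs of variables, all in `B`, such that some
`t` of the `2 s` variables (`x_1, …, x_s, y_1, …, y_s`), in some order, form a tuple in `Y`, and no `x_i`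
among them is equal to a `y_j` among them. -/
noncomputable def Meeting (s k t : ℕ) (B : Finset ℕ) (Y : Finset (Fin t → ℕ)) :
    Finset ((Fin s → ℕ) × (Fin s → ℕ)) :=
  ((Fintype.piFinset fun _ : Fin s => B) ×ˢ (Fintype.piFinset fun _ : Fin s => B)).filter
    (fun p : (Fin s → ℕ) × (Fin s → ℕ) =>
      (∀ j : Fin k, ∑ i : Fin s, p.1 i ^ (j.val + 1) = ∑ i : Fin s, p.2 i ^ (j.val + 1)) ∧
      ∃ e : Fin t ↪ Fin s ⊕ Fin s, (fun a => Sum.elim p.1 p.2 (e a)) ∈ Y ∧
        ∀ a b i j, e a = Sum.inl i → e b = Sum.inr j → p.1 i ≠ p.2 j)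

/-- Let `K = k (k + 1) / 2`, `1 ≤ t ≤ k`, `1 ≤ s < t ⌊K / t⌋` (this holds if `s + t ≤ K`) and `δ > 0`. For every `N`, EVERY set `B ⊆ [1,N]` (for
instance `[1,N]`) and EVERY set `Y` of at most `|B|^t N^(-δ)` `t`-tuples, the solutions in `B` of
Vinogradov's system of degree `k` in `s` pairs of variables for which some `t` of the variables form a
tuple in `Y` (no `x_i` among them being equal to a `y_j` among them) number at most
`C |B|^s N^(-δ/(16 s))`. -/
theorem result (k s t : ℕ) (ht : 1 ≤ t) (htk : t ≤ k) (hs : 1 ≤ s)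
    (hst : s < t * (k * (k + 1) / 2 / t))
    (δ : ℝ) (hδ : 0 < δ) :
    ∃ C : ℝ, ∀ (N : ℕ) (B : Finset ℕ) (Y : Finset (Fin t → ℕ)), 1 ≤ N → B ⊆ Icc 1 N →
      (Y.card : ℝ) ≤ (B.card : ℝ) ^ t * (N : ℝ) ^ (-δ) →
      ((Meeting s k t B Y).card : ℝ) ≤ C * (B.card : ℝ) ^ s * (N : ℝ) ^ (-(δ / (16 * s))) := by
  classical
  obtain ⟨C, hC⟩ := Pool.Agent.Run7.h195.VR.rel_main_t k s t ht htk hs hst δ hδ
  refine ⟨C, fun N B Y hN hB hY => ?_⟩
  refine le_trans ?_ (hC N B Y hN hB hY)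
  have h : (Meeting s k t B Y).card ≤ ((Pool.Agent.Run7.h195.VR.JS s k B).filter fun p =>
      ∃ e : Fin t ↪ Fin s ⊕ Fin s, (fun a => Sum.elim p.1 p.2 (e a)) ∈ Y ∧
        ∀ a b i j, e a = Sum.inl i → e b = Sum.inr j → p.1 i ≠ p.2 j).card := by
    refine Finset.card_le_card ?_
    intro p hp
    unfold Meeting at hp
    rw [Finset.mem_filter] at hp
    obtain ⟨h1, h2, h3⟩ := hp
    rw [Finset.mem_filter]
    refine ⟨?_, h3⟩
    unfold Pool.Agent.Run7.h195.VR.JS
    rw [Finset.mem_filter]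
    exact ⟨h1, h2⟩
  have h2 : ((Meeting s k t B Y).card : ℝ) ≤ ((((Pool.Agent.Run7.h195.VR.JS s k B).filter fun p =>
      ∃ e : Fin t ↪ Fin s ⊕ Fin s, (fun a => Sum.elim p.1 p.2 (e a)) ∈ Y ∧
        ∀ a b i j, e a = Sum.inl i → e b = Sum.inr j → p.1 i ≠ p.2 j).card : ℕ) : ℝ) := by
    exact_mod_cast h
  refine h2.trans (le_of_eq ?_)
  congr!

end Pool.Agent.Results.MP_e21eee_nt.NoConcentration
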