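import Pool.Agent.Run7.h777.VW.L2

/-! # Mean values of exponential sums over the moment curve with arbitrary coefficients -/

set_option autoImplicit false

open MeasureTheory

namespace Pool.Agent.Results.MP_e21eee_nt.Restriction

/-- The exponential sum `∑_{n ≤ N} a_n e(θ₁ n + θ₂ n² + ... + θ_k n^k)`. -/
noncomputable def expSum (k N : ℕ) (a : ℕ → ℂ) (θ : Fin k → ℝ) : ℂ :=
  ∑ n ∈ Finset.Icc 1 N, a n * Complex.exp (2 * (Real.pi : ℂ) * Complex.I *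
    ∑ j : Fin k, (θ j : ℂ) * (n : ℂ) ^ ((j : ℕ) + 1))

/-- Its `2s`-th moment over the unit cube `[0,1]^k`. -/
noncomputable def moment (s k N : ℕ) (a : ℕ → ℂ) : ℝ :=
  ∫ θ in Set.Icc (0 : Fin k → ℝ) 1, ‖expSum k N a θ‖ ^ (2 * s)

/-- No coefficient is large: `N^α |a_m|² ≤ ∑_{n ≤ N} |a_n|²` for all `m ≤ N`. -/
def Spread (N : ℕ) (α : ℝ) (a : ℕ → ℂ) : Prop :=
  ∀ m ∈ Finset.Icc 1 N, (N : ℝ) ^ α * ‖a m‖ ^ 2 ≤ ∑ n ∈ Finset.Icc 1 N, ‖a n‖ ^ 2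

/-- Let `k < s` and `0 < α ≤ 1`.

1. If `2(s-k)(s+k+1) < α ((k+1)^2 + 4(s-k) - 5)`, then for all `N` and all complex `a_1, ..., a_N`
   with `N^α |a_m|² ≤ ∑ |a_n|²` for all `m`, the `2s`-th moment is at most `C (∑ |a_n|²)^s`.
2. If `(s-k)(s+k+1)/(2q) + ((1+α)/2) (q + (1-1/q)(s-k-1)) < α s` for some integer `q ≥ 1`, it is
   `(s! + O(N^(-δ))) (∑ |a_n|²)^s` for all such coefficients, with some `δ > 0`. -/
theorem result (s k : ℕ) (hks : k < s) (α : ℝ) (hα : 0 < α) (hα1 : α ≤ 1) :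
    (2 * ((s : ℝ) - k) * (s + k + 1) < α * (((k : ℝ) + 1) ^ 2 + 4 * (s - k) - 5) →
      ∃ C : ℝ, ∀ N : ℕ, 1 ≤ N → ∀ a : ℕ → ℂ, Spread N α a →
        moment s k N a ≤ C * (∑ n ∈ Finset.Icc 1 N, ‖a n‖ ^ 2) ^ s) ∧
    (∀ q : ℕ, 1 ≤ q →
      ((s : ℝ) - k) * (s + k + 1) / (2 * q) +
        (1 + α) / 2 * ((q : ℝ) + (1 - 1 / (q : ℝ)) * ((s : ℝ) - k - 1)) < α * s →
      ∃ δ : ℝ, 0 < δ ∧ ∃ C : ℝ, ∀ N : ℕ, 1 ≤ N → ∀ a : ℕ → ℂ, Spread N α a →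
        |moment s k N a - (s.factorial : ℝ) * (∑ n ∈ Finset.Icc 1 N, ‖a n‖ ^ 2) ^ s| ≤
          C * (N : ℝ) ^ (-δ) * (∑ n ∈ Finset.Icc 1 N, ‖a n‖ ^ 2) ^ s) := by
  have hks' : (k : ℝ) + 1 ≤ s := by exact_mod_cast hks
  have hmax : ∀ (N : ℕ), 1 ≤ N → ∀ a : ℕ → ℂ, Spread N α a → ∃ H : ℝ,
      (∀ n ∈ Finset.Icc 1 N, ‖a n‖ ≤ H) ∧
      (N : ℝ) ^ α * H ^ 2 ≤ ∑ n ∈ Finset.Icc 1 N, ‖a n‖ ^ 2 := by
    intro N hN a ha
    obtain ⟨m, hm1, hm2⟩ := Finset.exists_max_image (Finset.Icc 1 N) (fun n => ‖a n‖)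
      ⟨1, Finset.mem_Icc.2 ⟨le_rfl, hN⟩⟩
    exact ⟨‖a m‖, hm2, ha m hm1⟩
  refine ⟨fun h => ?_, fun q hq h => ?_⟩
  · obtain ⟨g, hg⟩ : ∃ g : ℝ, g = α * (((k : ℝ) + 1) ^ 2 + 4 * (s - k) - 5) -
      2 * ((s : ℝ) - k) * (s + k + 1) := ⟨_, rfl⟩
    have hg0 : 0 < g := by
      rw [hg]
      linarith
    have hk1 : (0 : ℝ) < (k : ℝ) + 1 := by positivity
    obtain ⟨δ, hδ⟩ : ∃ δ : ℝ, δ = min (1 / 2) (g / (4 * α * ((k : ℝ) + 1))) := ⟨_, rfl⟩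
    have hδ0 : 0 < δ := by
      rw [hδ]
      exact lt_min (by norm_num) (by positivity)
    have hδ1 : δ ≤ 1 / 2 := by
      rw [hδ]
      exact min_le_left _ _
    have hδ2 : 4 * α * ((k : ℝ) + 1) * δ ≤ g := by
      have h1 : δ ≤ g / (4 * α * ((k : ℝ) + 1)) := by
        rw [hδ]
        exact min_le_right _ _
      rw [le_div_iff₀ (by positivity)] at h1
      linarith
    have hk0 : (0 : ℝ) ≤ k := Nat.cast_nonneg k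
    have hc0 : 0 < (k : ℝ) + 1 - δ := by linarith
    have hcond : 2 * ((s : ℝ) - k) * (s + k + 1) <
        α * (((k : ℝ) + 1 - δ) ^ 2 + 4 * (s - k) - 5) := by
      have h1 : α * (((k : ℝ) + 1 - δ) ^ 2 + 4 * (s - k) - 5) =
          α * (((k : ℝ) + 1) ^ 2 + 4 * (s - k) - 5) - 2 * (α * ((k : ℝ) + 1) * δ) + α * δ ^ 2 := by
        ring
      have h2 : 0 < α * ((k : ℝ) + 1) * δ := by positivity
      have h3 : 0 ≤ α * δ ^ 2 := by positivity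
      rw [h1]
      linarith
    obtain ⟨C, hC⟩ := Pool.Agent.Run7.h777.VW.restr s k hks α hα hα1 δ hδ0 (by linarith)
      ((k : ℝ) + 1 - δ) hc0 (by ring) hcond
    refine ⟨C, fun N hN a ha => ?_⟩
    obtain ⟨H, hH1, hH2⟩ := hmax N hN a ha
    exact hC N hN a H hH1 hH2
  · have h' : Pool.Agent.Run7.h777.VA.vol s k / q +
        (1 + α) / 2 * ((q : ℝ) + (1 - 1 / (q : ℝ)) * ((s : ℝ) - k - 1)) < α * s := by
      unfold Pool.Agent.Run7.h777.VA.vol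
      rw [div_div]
      exact h
    obtain ⟨δ, hδ, C, hC⟩ := Pool.Agent.Run7.h777.VW.asymL2 s k q hks hq α hα hα1 h'
    refine ⟨δ, hδ, C, fun N hN a ha => ?_⟩
    obtain ⟨H, hH1, hH2⟩ := hmax N hN a ha
    exact hC N hN a H hH1 hH2

end Pool.Agent.Results.MP_e21eee_nt.Restriction
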