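import Pool.Agent.Run7.h195.VR.Fin

/-! # Vinogradov's system without an `ε` for almost all subsets `A` of an arbitrary set `B` in
`[1,N]` with `|A| ≤ |B| N^(-δ)`: sharp asymptotics at and beyond the critical number of variables -/

set_option autoImplicit false

namespace Pool.Agent.Results.MP_e21eee_nt.SparseSubsets

open Finset

open scoped Classical in
/-- the solutions of Vinogradov's system of degree `k` in `s` pairs of variables, all in `A`;
`J_{s,k}(A)` is the number of its elements. -/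
noncomputable def Sol (s k : ℕ) (A : Finset ℕ) : Finset ((Fin s → ℕ) × (Fin s → ℕ)) :=
  ((Fintype.piFinset fun _ : Fin s => A) ×ˢ (Fintype.piFinset fun _ : Fin s => A)).filter
    (fun p : (Fin s → ℕ) × (Fin s → ℕ) =>
      ∀ j : Fin k, ∑ i : Fin s, p.1 i ^ (j.val + 1) = ∑ i : Fin s, p.2 i ^ (j.val + 1))

open scoped Classical in
/-- the non-diagonal solutions with all variables in `A`: the `y_i` are not a permutation of the `x_i`. -/
noncomputable def NonDiag (s k : ℕ) (A : Finset ℕ) : Finset ((Fin s → ℕ) × (Fin s → ℕ)) :=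
  ((Fintype.piFinset fun _ : Fin s => A) ×ˢ (Fintype.piFinset fun _ : Fin s => A)).filter
    (fun p : (Fin s → ℕ) × (Fin s → ℕ) =>
      (∀ j : Fin k, ∑ i : Fin s, p.1 i ^ (j.val + 1) = ∑ i : Fin s, p.2 i ^ (j.val + 1)) ∧
      ¬ ∃ σ : Equiv.Perm (Fin s), p.2 = p.1 ∘ σ)

open scoped Classical in
/-- Put `K = k (k + 1) / 2`. (1) For every `δ > 0` there is `C` such that for every `N`, EVERY set
`B ⊆ [1,N]` and every `m ≥ 1` with `m ≤ |B| N^(-δ)` and, if `s > K`, also `m^s ≤ |B|^K N^(-δ)`: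
all subsets `A ⊆ B` with `m` elements, except for a proportion `C N^(-δ/8)` of them, have at most
`m^s N^(-δ/8)` non-diagonal solutions and satisfy `|J_{s,k}(A) - s! m^s| ≤ m^s N^(-δ/8) + C m^(s-1)`.
(2) For every `A ⊆ [1,N]`, `|A|^(2s) ≤ (2s)^k N^K J_{s,k}(A)`; so for `B = [1,N]` the second condition in
(1) cannot be weakened to `m^s ≤ N^(K + δ)`. -/
theorem result (k s : ℕ) (hk : 1 ≤ k) (hs : 1 ≤ s) :
    (∀ δ : ℝ, 0 < δ → ∃ C : ℝ, ∀ (N m : ℕ) (B : Finset ℕ), 1 ≤ N → B ⊆ Icc 1 N → 1 ≤ m →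
      (m : ℝ) ≤ (B.card : ℝ) * (N : ℝ) ^ (-δ) →
      (s ≤ k * (k + 1) / 2 ∨ (m : ℝ) ^ s ≤ (B.card : ℝ) ^ (k * (k + 1) / 2) * (N : ℝ) ^ (-δ)) →
      (((B.powersetCard m).filter fun A => ¬ (
          ((NonDiag s k A).card : ℝ) ≤ (m : ℝ) ^ s * (N : ℝ) ^ (-(δ / 8)) ∧
          |((Sol s k A).card : ℝ) - (s.factorial : ℝ) * (m : ℝ) ^ s| ≤
            (m : ℝ) ^ s * (N : ℝ) ^ (-(δ / 8)) + C * (m : ℝ) ^ (s - 1))).card : ℝ) ≤
        C * (N : ℝ) ^ (-(δ / 8)) * ((B.powersetCard m).card : ℝ)) ∧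
    (∀ (N : ℕ) (A : Finset ℕ), 1 ≤ N → A ⊆ Icc 1 N →
      A.card ^ (2 * s) ≤ (2 * s) ^ k * N ^ (k * (k + 1) / 2) * (Sol s k A).card) := by
  refine ⟨fun δ hδ => ?_, fun N A hN hA => ?_⟩
  · obtain ⟨C, hC⟩ := Pool.Agent.Run7.h195.VR.main k s hk hs δ hδ
    refine ⟨C, fun N m B hN hB hm h1 h2 => ?_⟩
    have h3 : (m : ℝ) ^ s ≤ (B.card : ℝ) ^ (k * (k + 1) / 2) * (N : ℝ) ^ (-δ) := by
      rcases h2 with h2 | h2
      · have hN1 : (1 : ℝ) ≤ N := by exact_mod_cast hN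
        have hm1 : (1 : ℝ) ≤ m := by exact_mod_cast hm
        have hK : k * (k + 1) / 2 ≠ 0 := by omega
        have e1 : (0 : ℝ) ≤ (N : ℝ) ^ (-δ) := by positivity
        have e2 : (N : ℝ) ^ (-δ) ≤ 1 := Real.rpow_le_one_of_one_le_of_nonpos hN1 (by linarith)
        calc (m : ℝ) ^ s ≤ (m : ℝ) ^ (k * (k + 1) / 2) := pow_le_pow_right₀ hm1 h2
          _ ≤ ((B.card : ℝ) * (N : ℝ) ^ (-δ)) ^ (k * (k + 1) / 2) :=
              pow_le_pow_left₀ (by linarith) h1 _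
          _ = (B.card : ℝ) ^ (k * (k + 1) / 2) * ((N : ℝ) ^ (-δ)) ^ (k * (k + 1) / 2) := mul_pow _ _ _
          _ ≤ (B.card : ℝ) ^ (k * (k + 1) / 2) * (N : ℝ) ^ (-δ) :=
              mul_le_mul_of_nonneg_left (pow_le_of_le_one e1 e2 hK) (by positivity)
      · exact h2
    exact hC N m B hN hB hm h1 h3
  · exact Pool.Agent.Run7.h195.VR.lower s k N hs hN A hA

end Pool.Agent.Results.MP_e21eee_nt.SparseSubsets
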